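import Pool.Agent.K1H27.PL.Stm2
import Pool.Agent.K1H99.PL.Cor

set_option autoImplicit false

/-! `S_COR2`: kernels which are regular if `φ` has dimension `e > 1` (for helper27). The second part
follows the file of helper99 for dimension `2`. -/

namespace Pool.Agent.K1H10.PL

open MeasureTheory Set Metric Filter Topology
open scoped ENNReal NNReal
open Pool.Agent.K1H27.PL

section

variable {S : Type} [MeasurableSpace S] {μ : Measure S} {φ : S → ℂ}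

theorem univ_leE {M : ℝ} (hM : ∀ s, ‖φ s‖ ≤ M) {C : ℝ≥0} {e : ℝ}
    (hC : ∀ (z : ℂ) (r : ℝ), 0 < r → μ {s | ‖φ s - z‖ < r} ≤ C * ENNReal.ofReal (r ^ e)) :
    μ univ ≠ ⊤ := by
  have h := hC 0 (|M| + 1) (by positivity)
  have e1 : {s | ‖φ s - 0‖ < |M| + 1} = univ := by
    ext s
    simp only [sub_zero, mem_ofPred_eq, mem_univ, iff_true]
    have := hM s
    have := le_abs_self M
    linarith
  rw [e1] at h
  exact ne_top_of_le_ne_top (ENNReal.mul_ne_top ENNReal.coe_ne_top ENNReal.ofReal_ne_top) h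

theorem no_atomE {C : ℝ≥0} {e : ℝ} (he : 1 < e)
    (hC : ∀ (z : ℂ) (r : ℝ), 0 < r → μ {s | ‖φ s - z‖ < r} ≤ C * ENNReal.ofReal (r ^ e)) (z : ℂ) :
    ∀ᵐ s ∂μ, φ s ≠ z := by
  have h1 : ∀ n : ℕ, μ {s | φ s = z} ≤ C * ENNReal.ofReal (1 / ((n : ℝ) + 1)) := by
    intro n
    have hn : (0 : ℝ) < 1 / ((n : ℝ) + 1) := by positivity
    refine le_trans (measure_mono ?_) ((hC z _ hn).trans ?_)
    · intro s hs
      have hs' : φ s = z := hs
      simp only [mem_ofPred_eq, hs', sub_self, norm_zero]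
      exact hn
    · gcongr
      have h2 : 1 / ((n : ℝ) + 1) ≤ 1 := by
        rw [div_le_one (by positivity)]
        linarith [(Nat.cast_nonneg n : (0:ℝ) ≤ n)]
      calc (1 / ((n : ℝ) + 1)) ^ e ≤ (1 / ((n : ℝ) + 1)) ^ (1 : ℝ) :=
            Real.rpow_le_rpow_of_exponent_ge hn h2 he.le
        _ = _ := Real.rpow_one _
  have h2 : Tendsto (fun n : ℕ => (C : ℝ≥0∞) * ENNReal.ofReal (1 / ((n : ℝ) + 1))) atTop (𝓝 0) := by
    have h3 := (ENNReal.tendsto_ofReal (tendsto_one_div_add_atTop_nhds_zero_nat (𝕜 := ℝ)))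
    rw [ENNReal.ofReal_zero] at h3
    have h4 := ENNReal.Tendsto.const_mul (a := (C : ℝ≥0∞)) h3 (Or.inr ENNReal.coe_ne_top)
    rwa [mul_zero] at h4
  have h3 : μ {s | φ s = z} ≤ 0 := ge_of_tendsto' h2 h1
  have h4 : μ {s | ¬ φ s ≠ z} = 0 := by
    refine le_antisymm (le_trans (measure_mono ?_) h3) bot_le
    intro s hs
    simpa using hs
  exact h4

/-- dyadic bound of a negative power -/
theorem dyad (w : ℂ) (hw : w ≠ 0) {a : ℝ} (ha : 0 ≤ a) :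
    (‖w‖ₑ⁻¹) ^ a ≤ 1 + ∑' n : ℕ, {v : ℂ | ‖v‖ < 2 * (1 / 2) ^ n}.indicator
      (fun _ => ENNReal.ofReal ((2 ^ (n + 1)) ^ a)) w := by
  have hw0 : 0 < ‖w‖ := norm_pos_iff.2 hw
  have e1 : (‖w‖ₑ⁻¹) ^ a = ENNReal.ofReal ((‖w‖⁻¹) ^ a) := by
    rw [← ofReal_norm, ← ENNReal.ofReal_inv_of_pos hw0,
      ENNReal.ofReal_rpow_of_pos (inv_pos.2 hw0)]
  rw [e1]
  by_cases h1 : 1 ≤ ‖w‖
  · refine le_trans ?_ le_self_add
    rw [← ENNReal.ofReal_one]
    refine ENNReal.ofReal_le_ofReal ?_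
    exact Real.rpow_le_one (inv_nonneg.2 hw0.le) (inv_le_one_of_one_le₀ h1) ha
  · rw [not_le] at h1
    obtain ⟨n, hn1, hn2⟩ := exists_nat_pow_near_of_lt_one hw0 h1.le
      (by norm_num : (0 : ℝ) < 1 / 2) (by norm_num)
    refine le_trans ?_ (le_trans (ENNReal.le_tsum n) le_add_self)
    have hn3 : ‖w‖ < 2 * (1 / 2) ^ n := by
      have : (0 : ℝ) < (1 / 2) ^ n := by positivity
      linarith
    rw [indicator_of_mem (show w ∈ {v : ℂ | ‖v‖ < 2 * (1 / 2) ^ n} from hn3)]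
    refine ENNReal.ofReal_le_ofReal (Real.rpow_le_rpow (inv_nonneg.2 hw0.le) ?_ ha)
    rw [inv_le_comm₀ hw0 (by positivity)]
    refine le_trans (le_of_eq ?_) hn1.le
    rw [← inv_pow, one_div]

theorem basicE (hφ : Measurable φ) {M : ℝ} (hM : ∀ s, ‖φ s‖ ≤ M) {C : ℝ≥0} {e : ℝ} (he : 1 < e)
    (hC : ∀ (z : ℂ) (r : ℝ), 0 < r → μ {s | ‖φ s - z‖ < r} ≤ C * ENNReal.ofReal (r ^ e)) {a : ℝ}
    (h0 : 0 ≤ a) (h2 : a < e) : ∃ C' : ℝ≥0, ∀ z : ℂ, ∫⁻ s, (‖z - φ s‖ₑ⁻¹) ^ a ∂μ ≤ C' := by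
  set ρ : ℝ := 2 ^ a * (1 / 2) ^ e with hρ
  have hρ0 : 0 < ρ := by positivity
  have hρ1 : ρ < 1 := by
    have h3 : (2 : ℝ) ^ a < 2 ^ e := Real.rpow_lt_rpow_of_exponent_lt (by norm_num) h2
    have h4 : (0 : ℝ) < 2 ^ e := by positivity
    rw [hρ, one_div, Real.inv_rpow (by norm_num), ← div_eq_mul_inv, div_lt_one h4]
    exact h3
  set V : ℝ≥0∞ := μ univ + C * ENNReal.ofReal (2 ^ a * 2 ^ e) * (1 - ENNReal.ofReal ρ)⁻¹ with hV
  have hVtop : V ≠ ⊤ := by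
    refine ENNReal.add_ne_top.2 ⟨univ_leE hM hC, ENNReal.mul_ne_top
      (ENNReal.mul_ne_top ENNReal.coe_ne_top ENNReal.ofReal_ne_top) ?_⟩
    rw [ENNReal.inv_ne_top]
    have : ENNReal.ofReal ρ < 1 := by
      rw [← ENNReal.ofReal_one]
      exact (ENNReal.ofReal_lt_ofReal_iff zero_lt_one).2 hρ1
    exact (tsub_pos_of_lt this).ne'
  refine ⟨V.toNNReal, fun z => ?_⟩
  rw [ENNReal.coe_toNNReal hVtop]
  have hset : ∀ n : ℕ, MeasurableSet {v : ℂ | ‖v‖ < 2 * (1 / 2) ^ n} := fun n =>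
    measurableSet_lt measurable_norm measurable_const
  have hmeas : ∀ n : ℕ, Measurable fun s => {v : ℂ | ‖v‖ < 2 * (1 / 2) ^ n}.indicator
      (fun _ => ENNReal.ofReal ((2 ^ (n + 1)) ^ a)) (z - φ s) := fun n =>
    (measurable_const.indicator (hset n)).comp (measurable_const.sub hφ)
  calc ∫⁻ s, (‖z - φ s‖ₑ⁻¹) ^ a ∂μ
      ≤ ∫⁻ s, (1 + ∑' n : ℕ, {v : ℂ | ‖v‖ < 2 * (1 / 2) ^ n}.indicator
          (fun _ => ENNReal.ofReal ((2 ^ (n + 1)) ^ a)) (z - φ s)) ∂μ := by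
        refine lintegral_mono_ae ?_
        filter_upwards [no_atomE he hC z] with s hs
        exact dyad _ (sub_ne_zero.2 (Ne.symm hs)) h0
    _ = μ univ + ∑' n : ℕ, ∫⁻ s, {v : ℂ | ‖v‖ < 2 * (1 / 2) ^ n}.indicator
          (fun _ => ENNReal.ofReal ((2 ^ (n + 1)) ^ a)) (z - φ s) ∂μ := by
        rw [lintegral_add_left measurable_const, lintegral_one,
          lintegral_tsum fun n => (hmeas n).aemeasurable]
    _ ≤ μ univ + ∑' n : ℕ, C * ENNReal.ofReal (2 ^ a * 2 ^ e) * ENNReal.ofReal ρ ^ n := by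
        gcongr with n
        have e2 : (fun s => {v : ℂ | ‖v‖ < 2 * (1 / 2) ^ n}.indicator
            (fun _ => ENNReal.ofReal ((2 ^ (n + 1)) ^ a)) (z - φ s)) =
            {s | ‖φ s - z‖ < 2 * (1 / 2) ^ n}.indicator
              (fun _ => ENNReal.ofReal ((2 ^ (n + 1)) ^ a)) := by
          ext s
          by_cases hs : ‖φ s - z‖ < 2 * (1 / 2) ^ n
          · rw [indicator_of_mem (show s ∈ {s | ‖φ s - z‖ < 2 * (1 / 2) ^ n} from hs),
              indicator_of_mem]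
            change ‖z - φ s‖ < _
            rw [norm_sub_rev]
            exact hs
          · rw [indicator_of_notMem (show s ∉ {s | ‖φ s - z‖ < 2 * (1 / 2) ^ n} from hs),
              indicator_of_notMem]
            intro hc
            apply hs
            change ‖z - φ s‖ < _ at hc
            rw [norm_sub_rev]
            exact hc
        have hms : MeasurableSet {s | ‖φ s - z‖ < 2 * (1 / 2) ^ n} :=
          measurableSet_lt (hφ.sub measurable_const).norm measurable_const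
        rw [e2, lintegral_indicator_const hms]
        have h5 := hC z (2 * (1 / 2) ^ n) (by positivity)
        calc ENNReal.ofReal ((2 ^ (n + 1)) ^ a) * μ {s | ‖φ s - z‖ < 2 * (1 / 2) ^ n}
            ≤ ENNReal.ofReal ((2 ^ (n + 1)) ^ a) *
                (C * ENNReal.ofReal ((2 * (1 / 2) ^ n) ^ e)) := by gcongr
          _ = C * ENNReal.ofReal ((2 ^ (n + 1)) ^ a * (2 * (1 / 2) ^ n) ^ e) := by
              rw [ENNReal.ofReal_mul (by positivity)]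
              ring
          _ = C * ENNReal.ofReal (2 ^ a * 2 ^ e) * ENNReal.ofReal ρ ^ n := by
              rw [← ENNReal.ofReal_pow hρ0.le, mul_assoc, ← ENNReal.ofReal_mul (by positivity)]
              congr 2
              have f1 : ((2 : ℝ) ^ (n + 1)) ^ a = 2 ^ a * (2 ^ a) ^ n := by
                rw [← Real.rpow_natCast, ← Real.rpow_mul (by norm_num), mul_comm,
                  Real.rpow_mul (by norm_num), Real.rpow_natCast, pow_succ']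
              have f2 : (2 * (1 / 2 : ℝ) ^ n) ^ e = 2 ^ e * ((1 / 2) ^ e) ^ n := by
                rw [Real.mul_rpow (by norm_num) (by positivity), ← Real.rpow_natCast (1 / 2 : ℝ),
                  ← Real.rpow_mul (by norm_num), mul_comm (n : ℝ), Real.rpow_mul (by norm_num),
                  Real.rpow_natCast]
              rw [f1, f2, hρ, mul_pow]
              ring
    _ = V := by
        rw [ENNReal.tsum_mul_left, ENNReal.tsum_geometric]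

end

/-- the condition on `r` -/
theorem exps {e P r : ℝ} (he : 1 < e) (hP : 0 < P) (hr : P * (e / (e - 1)) < r) :
    P < r ∧ r / (r - P) < e := by
  have he1 : 0 < e - 1 := by linarith
  have h1 : P * e < r * (e - 1) := by
    rw [← mul_div_assoc, div_lt_iff₀ he1] at hr
    exact hr
  have h2 : P < r := by
    by_contra h
    rw [not_lt] at h
    nlinarith
  refine ⟨h2, ?_⟩
  rw [div_lt_iff₀ (by linarith)]
  nlinarith

/-- Hoelder's inequality -/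
theorem hold {α : Type} [MeasurableSpace α] (ν : Measure α) {u v : α → ℝ≥0∞} (hu : Measurable u)
    (hv : Measurable v) {a r : ℝ} (ha : 0 < a) (har : a < r) :
    ∫⁻ x, u x ^ a * v x ∂ν ≤ (∫⁻ x, u x ^ r ∂ν) ^ (a / r) *
      (∫⁻ x, v x ^ (r / (r - a)) ∂ν) ^ ((r - a) / r) := by
  have hr0 : 0 < r := ha.trans har
  have hra : 0 < r - a := by linarith
  have hpq : (r / a).HolderConjugate (r / (r - a)) := by
    rw [Real.holderConjugate_iff]
    refine ⟨by rw [lt_div_iff₀ ha]; linarith, ?_⟩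
    field_simp
    ring
  have h := ENNReal.lintegral_mul_le_Lp_mul_Lq ν hpq (hu.pow_const a).aemeasurable hv.aemeasurable
  simp only [one_div, inv_div, Pi.mul_apply] at h
  have e1 : ∀ x, (u x ^ a) ^ (r / a) = u x ^ r := fun x => by
    rw [← ENNReal.rpow_mul, mul_div_cancel₀ _ ha.ne']
  simp only [e1] at h
  exact h

/-- the first kind of kernels -/
theorem partA {S : Type} [MeasurableSpace S] {μ : Measure S} [SigmaFinite μ] {φ : S → ℂ}
    (hφ : Measurable φ) {M : ℝ} (hM : ∀ s, ‖φ s‖ ≤ M) {C : ℝ≥0} {e : ℝ} (he : 1 < e)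
    (hC : ∀ (z : ℂ) (r : ℝ), 0 < r → μ {s | ‖φ s - z‖ < r} ≤ C * ENNReal.ofReal (r ^ e))
    {p q : ℝ≥0∞} (hP : 0 < p.toReal) (hQ : 0 < q.toReal) (k : S → S → ℂ) (h : S → S → ℝ) (r : ℝ)
    (hh : Measurable (Function.uncurry h))
    (hr : max p.toReal q.toReal * (e / (e - 1)) < r)
    (hint : ∫⁻ s, ∫⁻ t, ‖h s t‖ₑ ^ r ∂μ ∂μ ≠ ⊤) (hkh : ∀ s t, ‖k s t‖ ≤ |h s t|) :
    ∃ γ : ℝ, 1 < γ ∧ ∃ D : ℝ≥0, WW μ p q φ γ univ k D := by
  set P := p.toReal with hPd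
  set Q := q.toReal with hQd
  have hee : 0 < e / (e - 1) := div_pos (by linarith) (by linarith)
  obtain ⟨hPr, hPe⟩ := exps he hP
    ((mul_le_mul_of_nonneg_right (le_max_left P Q) hee.le).trans_lt hr)
  obtain ⟨hQr, hQe⟩ := exps he hQ
    ((mul_le_mul_of_nonneg_right (le_max_right P Q) hee.le).trans_lt hr)
  have hr0 : 0 < r := hP.trans hPr
  have hrP : 0 < r / (r - P) := div_pos hr0 (by linarith)
  have hrQ : 0 < r / (r - Q) := div_pos hr0 (by linarith)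
  obtain ⟨γ, hγ1, hγP, hγQ⟩ : ∃ γ : ℝ, 1 < γ ∧ γ * (r / (r - P)) < e ∧
      γ * (r / (r - Q)) < e := by
    have h2 : (1:ℝ) < min (e / (r / (r - P))) (e / (r / (r - Q))) := by
      refine lt_min ?_ ?_
      · rw [lt_div_iff₀ hrP, one_mul]; exact hPe
      · rw [lt_div_iff₀ hrQ, one_mul]; exact hQe
    obtain ⟨γ, ha, hb⟩ := exists_between h2
    refine ⟨γ, ha, (lt_div_iff₀ hrP).1 (hb.trans_le (min_le_left _ _)),
      (lt_div_iff₀ hrQ).1 (hb.trans_le (min_le_right _ _))⟩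
  have hγ0 : 0 ≤ γ := by linarith
  obtain ⟨C₁, hC₁⟩ := basicE hφ hM he hC (mul_nonneg hγ0 hrP.le) hγP
  obtain ⟨C₂, hC₂⟩ := basicE hφ hM he hC (mul_nonneg hγ0 hrQ.le) hγQ
  set I : ℝ≥0∞ := ∫⁻ s, ∫⁻ t, ‖h s t‖ₑ ^ r ∂μ ∂μ with hI
  set B : ℝ≥0∞ := ((C₂ : ℝ≥0∞) ^ ((r - Q) / r)) ^ (P / Q) * (I ^ (P / r) *
    (C₁ : ℝ≥0∞) ^ ((r - P) / r)) with hB
  have hBtop : B ≠ ⊤ := by
    have hx1 : 0 ≤ (r - Q) / r := div_nonneg (by linarith) hr0.le
    have hx2 : 0 ≤ (r - P) / r := div_nonneg (by linarith) hr0.le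
    refine ENNReal.mul_ne_top (ENNReal.rpow_ne_top_of_nonneg (by positivity)
      (ENNReal.rpow_ne_top_of_nonneg hx1 ENNReal.coe_ne_top)) (ENNReal.mul_ne_top
      (ENNReal.rpow_ne_top_of_nonneg (by positivity) hint)
      (ENNReal.rpow_ne_top_of_nonneg hx2 ENNReal.coe_ne_top))
  refine ⟨γ, hγ1, B.toNNReal, fun z _ z' _ => ?_⟩
  rw [ENNReal.coe_toNNReal hBtop]
  have mw : ∀ z : ℂ, Measurable fun s => (‖z - φ s‖ₑ⁻¹) ^ γ := fun z =>
    ((measurable_const.sub hφ).enorm.inv).pow_const _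
  have mhs : ∀ s, Measurable fun t => ‖h s t‖ₑ := fun s =>
    (hh.comp measurable_prodMk_left).enorm
  set G : S → ℝ≥0∞ := fun s => ∫⁻ t, ‖h s t‖ₑ ^ r ∂μ with hG
  have mG : Measurable G := (hh.enorm.pow_const r).lintegral_prod_right
  have hin : ∀ s, ∫⁻ t, ‖k s t‖ₑ ^ Q * (‖z' - φ t‖ₑ⁻¹) ^ γ ∂μ ≤
      G s ^ (Q / r) * (C₂ : ℝ≥0∞) ^ ((r - Q) / r) := by
    intro s
    calc ∫⁻ t, ‖k s t‖ₑ ^ Q * (‖z' - φ t‖ₑ⁻¹) ^ γ ∂μ
        ≤ ∫⁻ t, ‖h s t‖ₑ ^ Q * (‖z' - φ t‖ₑ⁻¹) ^ γ ∂μ := by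
          refine lintegral_mono fun t => ?_
          gcongr
          rw [← ofReal_norm, Real.enorm_eq_ofReal_abs]
          exact ENNReal.ofReal_le_ofReal (hkh s t)
      _ ≤ (∫⁻ t, ‖h s t‖ₑ ^ r ∂μ) ^ (Q / r) *
            (∫⁻ t, ((‖z' - φ t‖ₑ⁻¹) ^ γ) ^ (r / (r - Q)) ∂μ) ^ ((r - Q) / r) :=
          hold μ (mhs s) (mw z') hQ hQr
      _ ≤ _ := by
          have hx1 : 0 ≤ (r - Q) / r := div_nonneg (by linarith) hr0.le
          gcongr
          refine le_trans (le_of_eq ?_) (hC₂ z')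
          refine lintegral_congr fun t => ?_
          rw [← ENNReal.rpow_mul]
  calc ∫⁻ s, (∫⁻ t, ‖k s t‖ₑ ^ Q * (‖z' - φ t‖ₑ⁻¹) ^ γ ∂μ) ^ (P / Q) *
        (‖z - φ s‖ₑ⁻¹) ^ γ ∂μ
      ≤ ∫⁻ s, ((C₂ : ℝ≥0∞) ^ ((r - Q) / r)) ^ (P / Q) *
          ((G s ^ (1 / r)) ^ P * (‖z - φ s‖ₑ⁻¹) ^ γ) ∂μ := by
        refine lintegral_mono fun s => ?_
        have h1 : (∫⁻ t, ‖k s t‖ₑ ^ Q * (‖z' - φ t‖ₑ⁻¹) ^ γ ∂μ) ^ (P / Q) ≤
            (G s ^ (Q / r) * (C₂ : ℝ≥0∞) ^ ((r - Q) / r)) ^ (P / Q) := by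
          gcongr
          exact hin s
        have h2 : (G s ^ (Q / r) * (C₂ : ℝ≥0∞) ^ ((r - Q) / r)) ^ (P / Q) =
            ((C₂ : ℝ≥0∞) ^ ((r - Q) / r)) ^ (P / Q) * (G s ^ (1 / r)) ^ P := by
          rw [ENNReal.mul_rpow_of_nonneg _ _ (by positivity), mul_comm, ← ENNReal.rpow_mul (G s),
            ← ENNReal.rpow_mul (G s)]
          congr 2
          field_simp
        rw [h2] at h1
        calc _ ≤ ((C₂ : ℝ≥0∞) ^ ((r - Q) / r)) ^ (P / Q) * (G s ^ (1 / r)) ^ P *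
              (‖z - φ s‖ₑ⁻¹) ^ γ := by gcongr
          _ = _ := mul_assoc _ _ _
    _ = ((C₂ : ℝ≥0∞) ^ ((r - Q) / r)) ^ (P / Q) *
          ∫⁻ s, (G s ^ (1 / r)) ^ P * (‖z - φ s‖ₑ⁻¹) ^ γ ∂μ :=
        lintegral_const_mul _ (((mG.pow_const _).pow_const _).mul (mw z))
    _ ≤ ((C₂ : ℝ≥0∞) ^ ((r - Q) / r)) ^ (P / Q) *
          ((∫⁻ s, (G s ^ (1 / r)) ^ r ∂μ) ^ (P / r) *
            (∫⁻ s, ((‖z - φ s‖ₑ⁻¹) ^ γ) ^ (r / (r - P)) ∂μ) ^ ((r - P) / r)) := by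
        gcongr
        exact hold μ (mG.pow_const _) (mw z) hP hPr
    _ ≤ B := by
        have hx1 : 0 ≤ (r - P) / r := div_nonneg (by linarith) hr0.le
        rw [hB]
        gcongr
        · refine le_of_eq (lintegral_congr fun s => ?_)
          rw [← ENNReal.rpow_mul, one_div, inv_mul_cancel₀ hr0.ne', ENNReal.rpow_one]
        · refine le_trans (le_of_eq ?_) (hC₁ z)
          refine lintegral_congr fun t => ?_
          rw [← ENNReal.rpow_mul]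

/-- the second kind of kernels -/
theorem partB {S : Type} [MeasurableSpace S] {μ : Measure S} [SigmaFinite μ] {φ : S → ℂ}
    (hφ : Measurable φ) {M : ℝ} (hM : ∀ s, ‖φ s‖ ≤ M) {C : ℝ≥0} {e : ℝ} (he : 1 < e) (he2 : e ≤ 2)
    (hC : ∀ (z : ℂ) (r : ℝ), 0 < r → μ {s | ‖φ s - z‖ < r} ≤ C * ENNReal.ofReal (r ^ e))
    (k : S → S → ℂ) (h : S → S → ℝ) (r θ c : ℝ)
    (hk : Measurable (Function.uncurry k)) (hh : Measurable (Function.uncurry h))
    (hr : 2 * (e / (e - 1)) < r) (hθ0 : 0 ≤ θ) (hθ1 : θ < e - 1)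
    (hint : ∫⁻ s, ∫⁻ t, ‖h s t‖ₑ ^ r ∂μ ∂μ ≠ ⊤)
    (hkh : ∀ s t, φ s ≠ φ t → ‖k s t‖ ≤ |h s t| + c * ‖φ s - φ t‖ ^ (-θ)) :
    ∃ γ : ℝ, 1 < γ ∧ ∃ D : ℝ≥0, WW μ 2 2 φ γ univ k D := by
  -- the exponents
  obtain ⟨hr2, hre⟩ := exps he (by norm_num : (0:ℝ) < 2) hr
  have hr0 : 0 < r := by linarith
  obtain ⟨γ, hγ1, hγθ, hγr⟩ : ∃ γ : ℝ, 1 < γ ∧ γ < e - θ ∧ γ * (r / (r - 2)) < e := by
    have h4 : 0 < r / (r - 2) := div_pos hr0 (by linarith)
    have h2 : (1:ℝ) < min (e - θ) (e / (r / (r - 2))) := by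
      refine lt_min (by linarith) ?_
      rw [lt_div_iff₀ h4, one_mul]
      exact hre
    obtain ⟨γ, ha, hb⟩ := exists_between h2
    refine ⟨γ, ha, hb.trans_le (min_le_left _ _), ?_⟩
    have h3 : γ < e / (r / (r - 2)) := hb.trans_le (min_le_right _ _)
    exact (lt_div_iff₀ h4).1 h3
  have hγ0 : 0 ≤ γ := by linarith
  have hA0 : 0 ≤ θ + γ := by linarith
  have hβ0 : 0 ≤ γ * (r / (r - 2)) := mul_nonneg hγ0 (div_nonneg hr0.le (by linarith))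
  obtain ⟨C₁, hC₁⟩ := basicE hφ hM he hC hA0 (by linarith)
  obtain ⟨C₂, hC₂⟩ := basicE hφ hM he hC hβ0 hγr
  set I : ℝ≥0∞ := ∫⁻ s, ∫⁻ t, ‖h s t‖ₑ ^ r ∂μ ∂μ with hI
  set c' : ℝ≥0∞ := ENNReal.ofReal |c| with hc'
  set B : ℝ≥0∞ := 2 * (I + C₂ * C₂) + 2 * (c' ^ (2 : ℝ) * (C₁ * C₁ + C₁ * C₁ + C₁ * C₁)) with hB
  have hBtop : B ≠ ⊤ := by
    refine ENNReal.add_ne_top.mpr ⟨ENNReal.mul_ne_top (by norm_num) (ENNReal.add_ne_top.mpr
      ⟨hint, ENNReal.mul_ne_top ENNReal.coe_ne_top ENNReal.coe_ne_top⟩), ?_⟩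
    refine ENNReal.mul_ne_top (by norm_num) (ENNReal.mul_ne_top
      (ENNReal.rpow_ne_top_of_nonneg (by norm_num) ENNReal.ofReal_ne_top) ?_)
    have : (C₁ : ℝ≥0∞) * C₁ ≠ ⊤ := ENNReal.mul_ne_top ENNReal.coe_ne_top ENNReal.coe_ne_top
    exact ENNReal.add_ne_top.mpr ⟨ENNReal.add_ne_top.mpr ⟨this, this⟩, this⟩
  refine ⟨γ, hγ1, B.toNNReal, fun z _ z' _ => ?_⟩
  rw [ENNReal.coe_toNNReal hBtop]
  have e2 : (2 : ℝ≥0∞).toReal = 2 := by norm_num
  rw [e2, div_self (by norm_num : (2:ℝ) ≠ 0)]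
  simp only [ENNReal.rpow_one]
  -- measurable functions
  set Y : S → ℝ≥0∞ := fun s => ‖z - φ s‖ₑ⁻¹ with hY
  set Z : S → ℝ≥0∞ := fun t => ‖z' - φ t‖ₑ⁻¹ with hZ
  set X : S → S → ℝ≥0∞ := fun s t => ‖φ s - φ t‖ₑ⁻¹ with hX
  have mY : Measurable Y := (measurable_const.sub hφ).enorm.inv
  have mZ : Measurable Z := (measurable_const.sub hφ).enorm.inv
  have mX : Measurable (Function.uncurry X) :=
    ((hφ.comp measurable_fst).sub (hφ.comp measurable_snd)).enorm.inv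
  have mH : Measurable (Function.uncurry fun s t => ‖h s t‖ₑ ^ r) := (hh.enorm).pow_const r
  -- pointwise estimate
  have hpt : ∀ s, ∀ᵐ t ∂μ, ‖k s t‖ₑ ^ (2 : ℝ) * Z t ^ γ * Y s ^ γ ≤
      2 * (‖h s t‖ₑ ^ r + (Y s * Z t) ^ (γ * (r / (r - 2)))) +
      2 * (c' ^ (2 : ℝ) * ((X s t * Y s) ^ (θ + γ) + (X s t * Z t) ^ (θ + γ) +
        (Y s * Z t) ^ (θ + γ))) := by
    intro s
    filter_upwards [no_atomE he hC (φ s)] with t ht
    have hne : φ s ≠ φ t := fun h => ht h.symm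
    have hpos : 0 < ‖φ s - φ t‖ := norm_pos_iff.mpr (sub_ne_zero.mpr hne)
    have hk1 : ‖k s t‖ₑ ≤ ‖h s t‖ₑ + c' * X s t ^ θ := by
      have h1 : ‖k s t‖ ≤ |h s t| + |c| * ‖φ s - φ t‖ ^ (-θ) := by
        refine (hkh s t hne).trans ?_
        gcongr
        exact le_abs_self c
      rw [← ofReal_norm]
      refine (ENNReal.ofReal_le_ofReal h1).trans ?_
      rw [ENNReal.ofReal_add (abs_nonneg _) (by positivity),
        ENNReal.ofReal_mul (abs_nonneg _), ← ENNReal.ofReal_rpow_of_pos hpos, ofReal_norm,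
        ENNReal.rpow_neg, ← ENNReal.inv_rpow, Real.enorm_eq_ofReal_abs]
    have hk2 : ‖k s t‖ₑ ^ (2 : ℝ) ≤
        2 * ‖h s t‖ₑ ^ (2 : ℝ) + 2 * (c' ^ (2 : ℝ) * X s t ^ (2 * θ)) := by
      calc ‖k s t‖ₑ ^ (2 : ℝ) ≤ (‖h s t‖ₑ + c' * X s t ^ θ) ^ (2 : ℝ) := by gcongr
        _ ≤ 2 ^ ((2 : ℝ) - 1) * (‖h s t‖ₑ ^ (2 : ℝ) + (c' * X s t ^ θ) ^ (2 : ℝ)) :=
            ENNReal.rpow_add_le_mul_rpow_add_rpow _ _ (by norm_num)
        _ = _ := by
            have e : (2 : ℝ) - 1 = 1 := by norm_num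
            rw [e, ENNReal.rpow_one, ENNReal.mul_rpow_of_nonneg _ _ (by norm_num),
              ← ENNReal.rpow_mul, mul_comm θ 2, mul_add]
    calc ‖k s t‖ₑ ^ (2 : ℝ) * Z t ^ γ * Y s ^ γ
        ≤ (2 * ‖h s t‖ₑ ^ (2 : ℝ) + 2 * (c' ^ (2 : ℝ) * X s t ^ (2 * θ))) * Z t ^ γ * Y s ^ γ := by
          gcongr
      _ = 2 * (‖h s t‖ₑ ^ (2 : ℝ) * (Y s * Z t) ^ γ) +
          2 * (c' ^ (2 : ℝ) * (X s t ^ (2 * θ) * (Y s ^ γ * Z t ^ γ))) := by
          rw [ENNReal.mul_rpow_of_nonneg _ _ hγ0]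
          ring
      _ ≤ _ := by
          gcongr
          · refine (Pool.Agent.K1H99.PL.young (r := r) _ _ (by linarith)).trans (le_of_eq ?_)
            rw [← ENNReal.rpow_mul]
          · exact Pool.Agent.K1H99.PL.three _ _ _ hθ0 (by linarith)
  -- the double integrals
  have dYZ : ∀ (β : ℝ) (D : ℝ≥0), 0 ≤ β → (∀ z : ℂ, ∫⁻ s, (‖z - φ s‖ₑ⁻¹) ^ β ∂μ ≤ D) →
      ∫⁻ s, ∫⁻ t, (Y s * Z t) ^ β ∂μ ∂μ ≤ D * D := by
    intro β D hβ hD
    calc ∫⁻ s, ∫⁻ t, (Y s * Z t) ^ β ∂μ ∂μ = ∫⁻ s, Y s ^ β * ∫⁻ t, Z t ^ β ∂μ ∂μ := by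
          refine lintegral_congr fun s => ?_
          rw [← lintegral_const_mul _ (mZ.pow_const β)]
          refine lintegral_congr fun t => ?_
          rw [ENNReal.mul_rpow_of_nonneg _ _ hβ]
      _ ≤ ∫⁻ s, Y s ^ β * D ∂μ := by
          refine lintegral_mono fun s => ?_
          gcongr
          exact hD z'
      _ = (∫⁻ s, Y s ^ β ∂μ) * D := lintegral_mul_const _ (mY.pow_const β)
      _ ≤ D * D := by gcongr; exact hD z
  have dXY : ∫⁻ s, ∫⁻ t, (X s t * Y s) ^ (θ + γ) ∂μ ∂μ ≤ C₁ * C₁ := by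
    calc ∫⁻ s, ∫⁻ t, (X s t * Y s) ^ (θ + γ) ∂μ ∂μ =
        ∫⁻ s, (∫⁻ t, X s t ^ (θ + γ) ∂μ) * Y s ^ (θ + γ) ∂μ := by
          refine lintegral_congr fun s => ?_
          have hm : Measurable fun t => X s t ^ (θ + γ) :=
            (mX.comp measurable_prodMk_left).pow_const _
          rw [← lintegral_mul_const _ hm]
          refine lintegral_congr fun t => ?_
          rw [ENNReal.mul_rpow_of_nonneg _ _ hA0]
      _ ≤ ∫⁻ s, C₁ * Y s ^ (θ + γ) ∂μ := by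
          refine lintegral_mono fun s => ?_
          gcongr
          exact hC₁ (φ s)
      _ = C₁ * ∫⁻ s, Y s ^ (θ + γ) ∂μ := lintegral_const_mul _ (mY.pow_const _)
      _ ≤ C₁ * C₁ := by gcongr; exact hC₁ z
  have dXZ : ∫⁻ s, ∫⁻ t, (X s t * Z t) ^ (θ + γ) ∂μ ∂μ ≤ C₁ * C₁ := by
    rw [lintegral_lintegral_swap
      (((mX.mul (mZ.comp measurable_snd)).pow_const (θ + γ)).aemeasurable)]
    calc ∫⁻ t, ∫⁻ s, (X s t * Z t) ^ (θ + γ) ∂μ ∂μ =
        ∫⁻ t, (∫⁻ s, X s t ^ (θ + γ) ∂μ) * Z t ^ (θ + γ) ∂μ := by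
          refine lintegral_congr fun t => ?_
          have hm : Measurable fun s => X s t ^ (θ + γ) :=
            (mX.comp measurable_prodMk_right).pow_const _
          rw [← lintegral_mul_const _ hm]
          refine lintegral_congr fun s => ?_
          rw [ENNReal.mul_rpow_of_nonneg _ _ hA0]
      _ ≤ ∫⁻ t, C₁ * Z t ^ (θ + γ) ∂μ := by
          refine lintegral_mono fun t => ?_
          gcongr
          refine le_trans (le_of_eq ?_) (hC₁ (φ t))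
          refine lintegral_congr fun s => ?_
          simp only [hX]
          rw [enorm_sub_rev]
      _ = C₁ * ∫⁻ t, Z t ^ (θ + γ) ∂μ := lintegral_const_mul _ (mZ.pow_const _)
      _ ≤ C₁ * C₁ := by gcongr; exact hC₁ z'
  -- measurability on the product
  have m1 : Measurable (Function.uncurry fun s t => (Y s * Z t) ^ (γ * (r / (r - 2)))) :=
    ((mY.comp measurable_fst).mul (mZ.comp measurable_snd)).pow_const _
  have m2 : Measurable (Function.uncurry fun s t => (X s t * Y s) ^ (θ + γ)) :=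
    (mX.mul (mY.comp measurable_fst)).pow_const _
  have m3 : Measurable (Function.uncurry fun s t => (X s t * Z t) ^ (θ + γ)) :=
    (mX.mul (mZ.comp measurable_snd)).pow_const _
  have m4 : Measurable (Function.uncurry fun s t => (Y s * Z t) ^ (θ + γ)) :=
    ((mY.comp measurable_fst).mul (mZ.comp measurable_snd)).pow_const _
  have add2 : ∀ F G : S → S → ℝ≥0∞, Measurable (Function.uncurry F) →
      ∫⁻ s, ∫⁻ t, (F s t + G s t) ∂μ ∂μ = ∫⁻ s, ∫⁻ t, F s t ∂μ ∂μ + ∫⁻ s, ∫⁻ t, G s t ∂μ ∂μ := by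
    intro F G hF
    have h1 : Measurable fun s => ∫⁻ t, F s t ∂μ := hF.lintegral_prod_right
    rw [← lintegral_add_left h1]
    refine lintegral_congr fun s => ?_
    have h2 : Measurable fun t => F s t := hF.comp measurable_prodMk_left
    exact lintegral_add_left h2 _
  have mul2 : ∀ (a : ℝ≥0∞) (F : S → S → ℝ≥0∞), Measurable (Function.uncurry F) →
      ∫⁻ s, ∫⁻ t, a * F s t ∂μ ∂μ = a * ∫⁻ s, ∫⁻ t, F s t ∂μ ∂μ := by
    intro a F hF
    have h1 : Measurable fun s => ∫⁻ t, F s t ∂μ := hF.lintegral_prod_right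
    rw [← lintegral_const_mul _ h1]
    refine lintegral_congr fun s => ?_
    have h2 : Measurable fun t => F s t := hF.comp measurable_prodMk_left
    exact lintegral_const_mul _ h2
  have n1 : Measurable (Function.uncurry fun s t =>
      ‖h s t‖ₑ ^ r + (Y s * Z t) ^ (γ * (r / (r - 2)))) := mH.add m1
  have n2 : Measurable (Function.uncurry fun s t =>
      2 * (‖h s t‖ₑ ^ r + (Y s * Z t) ^ (γ * (r / (r - 2))))) := n1.const_mul 2
  have n3 : Measurable (Function.uncurry fun s t =>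
      (X s t * Y s) ^ (θ + γ) + (X s t * Z t) ^ (θ + γ)) := m2.add m3
  have n4 : Measurable (Function.uncurry fun s t =>
      (X s t * Y s) ^ (θ + γ) + (X s t * Z t) ^ (θ + γ) + (Y s * Z t) ^ (θ + γ)) := n3.add m4
  have n5 : Measurable (Function.uncurry fun s t =>
      c' ^ (2 : ℝ) * ((X s t * Y s) ^ (θ + γ) + (X s t * Z t) ^ (θ + γ) +
        (Y s * Z t) ^ (θ + γ))) := n4.const_mul _
  calc ∫⁻ s, (∫⁻ t, ‖k s t‖ₑ ^ (2 : ℝ) * Z t ^ γ ∂μ) * Y s ^ γ ∂μ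
      = ∫⁻ s, ∫⁻ t, ‖k s t‖ₑ ^ (2 : ℝ) * Z t ^ γ * Y s ^ γ ∂μ ∂μ := by
        refine lintegral_congr fun s => ?_
        rw [lintegral_mul_const]
        exact (((hk.comp measurable_prodMk_left).enorm).pow_const _).mul (mZ.pow_const _)
    _ ≤ ∫⁻ s, ∫⁻ t, (2 * (‖h s t‖ₑ ^ r + (Y s * Z t) ^ (γ * (r / (r - 2)))) +
      2 * (c' ^ (2 : ℝ) * ((X s t * Y s) ^ (θ + γ) + (X s t * Z t) ^ (θ + γ) +
        (Y s * Z t) ^ (θ + γ)))) ∂μ ∂μ :=
        lintegral_mono fun s => lintegral_mono_ae (hpt s)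
    _ = 2 * (I + ∫⁻ s, ∫⁻ t, (Y s * Z t) ^ (γ * (r / (r - 2))) ∂μ ∂μ) +
        2 * (c' ^ (2 : ℝ) * (∫⁻ s, ∫⁻ t, (X s t * Y s) ^ (θ + γ) ∂μ ∂μ +
          ∫⁻ s, ∫⁻ t, (X s t * Z t) ^ (θ + γ) ∂μ ∂μ +
          ∫⁻ s, ∫⁻ t, (Y s * Z t) ^ (θ + γ) ∂μ ∂μ)) := by
        rw [add2 _ _ n2, mul2 _ _ n1, add2 _ _ mH, mul2 2 _ n5, mul2 _ _ n4,
          add2 _ _ n3, add2 _ _ m2]
    _ ≤ B := by
        rw [hB]
        gcongr
        · exact dYZ _ C₂ hβ0 hC₂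
        · exact dYZ _ C₁ hA0 hC₁

theorem t_COR2 : S_COR2 := by
  intro S _ μ _ φ hφ ⟨M, hM⟩ C e he he2 hC
  constructor
  · intro p q hpq hp hq k h r hk hh hr hint hkh
    have hP : 0 < p.toReal := ENNReal.toReal_pos hpq.ne_zero hp
    have hQ : 0 < q.toReal := ENNReal.toReal_pos hpq.symm.ne_zero hq
    exact partA hφ hM he hC hP hQ k h r hh hr hint hkh
  · intro k h r θ c hk hh hr hθ0 hθ1 hint hkh
    exact partB hφ hM he he2 hC k h r θ c hk hh hr hθ0 hθ1 hint hkh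

end Pool.Agent.K1H10.PL
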