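import Pool.Agent.K1H27.PL.Stm

set_option autoImplicit false

/-! # Measurable selection of kernel vectors (piece PL-SELM for helper27) -/

namespace Pool.Agent.K1H10.PL

open MeasureTheory Matrix Polynomial Pool.Agent.K1H27.PL
open scoped ComplexOrder

variable {n : ℕ}

/-- the coefficients of the characteristic polynomial are continuous -/
theorem coeff_cont (l : ℕ) :
    Continuous fun A : Matrix (Fin n) (Fin n) ℂ => A.charpoly.coeff l := by
  have h1 : ∀ A : Matrix (Fin n) (Fin n) ℂ, A.charpoly.coeff l =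
      MvPolynomial.eval (fun q : Fin n × Fin n => A q.1 q.2)
        ((Matrix.charpoly.univ ℂ (Fin n)).coeff l) := by
    intro A
    have h2 := Matrix.charpoly.univ_coeff_eval₂Hom (Fin n) (RingHom.id ℂ)
      (fun q : Fin n × Fin n => A q.1 q.2) l
    have h3 : Matrix.of (Function.curry fun q : Fin n × Fin n => A q.1 q.2) = A := rfl
    rw [h3] at h2
    rw [← h2]
    rfl
  simp only [h1]
  exact (MvPolynomial.continuous_eval _).comp
    (continuous_pi fun q => (continuous_apply_apply q.1 q.2))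

/-- the vector in the kernel -/
noncomputable def F (m : ℕ) (i : Fin n) (A : Matrix (Fin n) (Fin n) ℂ) : Fin n → ℂ :=
  ∑ j ∈ Finset.range (n + 1),
    (Aᴴ * A).charpoly.coeff (j + m) • ((Aᴴ * A) ^ j).mulVec (Pi.single i 1)

theorem B_cont : Continuous fun A : Matrix (Fin n) (Fin n) ℂ => Aᴴ * A :=
  continuous_id.matrix_conjTranspose.matrix_mul continuous_id

theorem F_cont (m : ℕ) (i : Fin n) : Continuous (F m i) := by
  unfold F
  refine continuous_finsetSum _ fun j _ => ?_
  refine ((coeff_cont (j + m)).comp B_cont).smul ?_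
  exact (B_cont.pow j).matrix_mulVec continuous_const

/-- powers of a Hermitian matrix -/
theorem herm_pow {B : Matrix (Fin n) (Fin n) ℂ} (hB : B.IsHermitian) (v : Fin n → ℂ) :
    ∀ k : ℕ, (B ^ (2 ^ k)).mulVec v = 0 → B.mulVec v = 0 := by
  intro k
  induction k with
  | zero =>
    intro h
    rwa [pow_zero, pow_one] at h
  | succ k ih =>
    intro h
    apply ih
    have h1 : (B ^ (2 ^ k))ᴴ = B ^ (2 ^ k) := by
      rw [conjTranspose_pow, hB.eq]
    rw [← conjTranspose_mul_self_mulVec_eq_zero, h1, ← pow_add]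
    rw [pow_succ, mul_two] at h
    exact h

theorem herm_ker {B : Matrix (Fin n) (Fin n) ℂ} (hB : B.IsHermitian) (v : Fin n → ℂ) (m : ℕ)
    (h : (B ^ m).mulVec v = 0) : B.mulVec v = 0 := by
  refine herm_pow hB v m ?_
  have h1 : m ≤ 2 ^ m := Nat.lt_two_pow_self.le
  obtain ⟨k, hk⟩ := Nat.exists_eq_add_of_le h1
  rw [hk, add_comm, pow_add, ← mulVec_mulVec, h, mulVec_zero]

/-- the vectors are in the kernel -/
theorem F_ker (m : ℕ) (i : Fin n) (A : Matrix (Fin n) (Fin n) ℂ)
    (h : ∀ l < m, (Aᴴ * A).charpoly.coeff l = 0) : A.mulVec (F m i A) = 0 := by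
  set B := Aᴴ * A with hB
  have hH : B.IsHermitian := isHermitian_conjTranspose_mul_self A
  rw [← conjTranspose_mul_self_mulVec_eq_zero]
  refine herm_ker hH _ m ?_
  have h1 : (B ^ m).mulVec (F m i A) = (aeval B B.charpoly).mulVec (Pi.single i 1) := by
    rw [aeval_eq_sum_range' (n := m + (n + 1)) (by
      rw [charpoly_natDegree_eq_dim, Fintype.card_fin]
      omega), Finset.sum_range_add, Finset.sum_eq_zero (s := Finset.range m), zero_add]
    · unfold F
      rw [mulVec_sum, sum_mulVec]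
      refine Finset.sum_congr rfl fun j _ => ?_
      rw [mulVec_smul, mulVec_mulVec, ← pow_add, smul_mulVec, add_comm j m]
    · intro l hl
      rw [h l (Finset.mem_range.1 hl), zero_smul]
  rw [h1, aeval_self_charpoly, zero_mulVec]

/-- some vector is not zero -/
theorem F_ne (A : Matrix (Fin n) (Fin n) ℂ) (hA : A.det = 0) : ∃ m ≤ n,
    (∀ l < m, (Aᴴ * A).charpoly.coeff l = 0) ∧ (Aᴴ * A).charpoly.coeff m ≠ 0 ∧
      ∃ i, F m i A ≠ 0 := by
  classical
  set B := Aᴴ * A with hB
  have hn : B.charpoly.coeff n = 1 := by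
    have h1 := B.charpoly_monic
    have h2 := B.charpoly_natDegree_eq_dim
    rw [Fintype.card_fin] at h2
    have h3 := h1.coeff_natDegree
    rwa [h2] at h3
  have hex : ∃ l, B.charpoly.coeff l ≠ 0 := ⟨n, by rw [hn]; exact one_ne_zero⟩
  refine ⟨Nat.find hex, Nat.find_min' hex (by rw [hn]; exact one_ne_zero), fun l hl => ?_,
    Nat.find_spec hex, ?_⟩
  · have := Nat.find_min hex hl
    rwa [not_not] at this
  · set m := Nat.find hex with hm
    have hcm : B.charpoly.coeff m ≠ 0 := Nat.find_spec hex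
    have hdet : B.det = 0 := by rw [hB, det_mul, hA, mul_zero]
    obtain ⟨v, hv, hBv⟩ := exists_mulVec_eq_zero_iff.2 hdet
    by_contra hcon
    push Not at hcon
    have h1 : (∑ j ∈ Finset.range (n + 1), B.charpoly.coeff (j + m) • B ^ j).mulVec v =
        B.charpoly.coeff m • v := by
      rw [sum_mulVec, Finset.sum_range_succ', Finset.sum_eq_zero, zero_add, pow_zero, zero_add,
        smul_mulVec, one_mulVec]
      intro j _
      rw [smul_mulVec, pow_succ, ← mulVec_mulVec, hBv, mulVec_zero, smul_zero]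
    have h2 : (∑ j ∈ Finset.range (n + 1), B.charpoly.coeff (j + m) • B ^ j) = 0 := by
      ext a b
      have h3 := congrFun (hcon b) a
      unfold F at h3
      rw [Pi.zero_apply] at h3
      rw [Matrix.zero_apply, ← h3]
      have h4 : ∑ j ∈ Finset.range (n + 1), B.charpoly.coeff (j + m) •
          (B ^ j).mulVec (Pi.single b 1) =
          (∑ j ∈ Finset.range (n + 1), B.charpoly.coeff (j + m) • B ^ j).mulVec
            (Pi.single b 1) := by
        rw [sum_mulVec]
        exact Finset.sum_congr rfl fun j _ => (smul_mulVec _ _ _).symm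
      rw [h4, mulVec_single_one]
      rfl
    rw [h2, zero_mulVec] at h1
    have h5 := (smul_eq_zero.1 h1.symm).resolve_left hcm
    exact hv h5

theorem t_SELM : S_SELM := by
  classical
  intro n M Z hZ hM hdet hpos
  -- measurable versions
  set c : ℕ → ℂ → ℂ := fun l => Z.piecewise (fun z => ((M z)ᴴ * M z).charpoly.coeff l) 0 with hc
  have hcm : ∀ l, Measurable (c l) := fun l =>
    ContinuousOn.measurable_piecewise (((coeff_cont l).comp B_cont).comp_continuousOn hM)
      continuousOn_const hZ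
  set w : ℕ → Fin n → ℂ → (Fin n → ℂ) := fun m i => Z.piecewise (fun z => F m i (M z)) 0 with hw
  have hwm : ∀ m i, Measurable (w m i) := fun m i =>
    ContinuousOn.measurable_piecewise ((F_cont m i).comp_continuousOn hM) continuousOn_const hZ
  set Zm : ℕ → Set ℂ := fun m => Z ∩ ((⋂ l ∈ Finset.range m, {z | c l z = 0}) ∩
    {z | c m z ≠ 0}) with hZm
  have hZmm : ∀ m, MeasurableSet (Zm m) := fun m => by
    refine hZ.inter (MeasurableSet.inter ?_ ?_)
    · exact Finset.measurableSet_biInter _ fun l _ => hcm l (measurableSet_singleton 0)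
    · exact (hcm m (measurableSet_singleton 0)).compl
  have hZmem : ∀ m z, z ∈ Zm m → z ∈ Z ∧ (∀ l < m, ((M z)ᴴ * M z).charpoly.coeff l = 0) := by
    rintro m z ⟨h1, h2, h3⟩
    refine ⟨h1, fun l hl => ?_⟩
    rw [Set.mem_iInter₂] at h2
    have h4 := h2 l (Finset.mem_range.2 hl)
    rw [Set.mem_ofPred_eq] at h4
    have h5 : c l z = ((M z)ᴴ * M z).charpoly.coeff l := Set.piecewise_eq_of_mem _ _ _ h1
    rw [← h5, h4]
  -- choice of m and i
  have hcover : Z ⊆ ⋃ q : ℕ × Fin n, (Zm q.1 ∩ {z | w q.1 q.2 z ≠ 0}) := by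
    intro z hz
    obtain ⟨m, -, h1, h2, i, h3⟩ := F_ne (M z) (hdet z hz)
    have hcz : ∀ l, c l z = ((M z)ᴴ * M z).charpoly.coeff l := fun l =>
      Set.piecewise_eq_of_mem _ _ _ hz
    have hwz : w m i z = F m i (M z) := Set.piecewise_eq_of_mem _ _ _ hz
    rw [Set.mem_iUnion]
    refine ⟨(m, i), ⟨hz, ?_, ?_⟩, ?_⟩
    · rw [Set.mem_iInter₂]
      intro l hl
      rw [Set.mem_ofPred_eq, hcz]
      exact h1 l (Finset.mem_range.1 hl)
    · rw [Set.mem_ofPred_eq, hcz]
      exact h2
    · rw [Set.mem_ofPred_eq]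
      change w m i z ≠ 0
      rw [hwz]
      exact h3
  obtain ⟨⟨m, i⟩, hmi⟩ : ∃ q : ℕ × Fin n, 0 < volume (Zm q.1 ∩ {z | w q.1 q.2 z ≠ 0}) := by
    by_contra hcon
    push Not at hcon
    have h1 : volume (⋃ q : ℕ × Fin n, (Zm q.1 ∩ {z | w q.1 q.2 z ≠ 0})) = 0 :=
      measure_iUnion_null fun q => nonpos_iff_eq_zero.1 (hcon q)
    exact hpos.ne' (measure_mono_null hcover h1)
  dsimp only at hmi
  set y : ℂ → (Fin n → ℂ) := (Zm m).indicator
    (fun z => (((1 + ‖w m i z‖)⁻¹ : ℝ) : ℂ) • w m i z) with hy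
  have hpos1 : ∀ z, 0 < 1 + ‖w m i z‖ := fun z => by positivity
  have hsc : ∀ z, (((1 + ‖w m i z‖)⁻¹ : ℝ) : ℂ) ≠ 0 := fun z => by
    exact_mod_cast (inv_pos.2 (hpos1 z)).ne'
  refine ⟨y, ?_, fun z => ?_, fun z hz => ?_, fun z hz => ?_, ?_⟩
  · refine Measurable.indicator ?_ (hZmm m)
    have h1 : Measurable fun z => (((1 + ‖w m i z‖)⁻¹ : ℝ) : ℂ) :=
      Complex.measurable_ofReal.comp (measurable_const.add (hwm m i).norm).inv
    exact measurable_pi_lambda _ fun a => h1.mul ((measurable_pi_apply a).comp (hwm m i))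
  · by_cases h : z ∈ Zm m
    · rw [hy, Set.indicator_of_mem h, norm_smul, Complex.norm_real, Real.norm_of_nonneg
        (inv_pos.2 (hpos1 z)).le, inv_mul_le_iff₀ (hpos1 z)]
      linarith [norm_nonneg (w m i z)]
    · rw [hy, Set.indicator_of_notMem h, norm_zero]
      exact zero_le_one
  · exact Set.indicator_of_notMem (fun h => hz (hZmem m z h).1) _
  · by_cases h : z ∈ Zm m
    · have hwz : w m i z = F m i (M z) := Set.piecewise_eq_of_mem _ _ _ hz
      rw [hy, Set.indicator_of_mem h, mulVec_smul, hwz, F_ker m i (M z) (hZmem m z h).2, smul_zero]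
    · rw [hy, Set.indicator_of_notMem h, mulVec_zero]
  · refine hmi.trans_le (measure_mono ?_)
    rintro z ⟨h1, h2⟩
    rw [Set.mem_ofPred_eq] at h2 ⊢
    rw [hy, Set.indicator_of_mem h1]
    exact smul_ne_zero (hsc z) h2

end Pool.Agent.K1H10.PL
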