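import Pool.Agent.K1H49.PL.Stm

/-! Piece ULT of the project PL: two ultrafilters on the binary words. -/

set_option autoImplicit false

namespace Pool.Agent.K1H10.PL

open Pool.Agent.K1H49.PL Filter Topology

attribute [local instance] Ultrafilter.mul Ultrafilter.semigroup

/-- the semigroup of the ultrafilters on the words -/
abbrev BS := Ultrafilter (FreeMonoid Bool)

/-- closed nonempty left ideals -/
def LI : Set (Set BS) := {N | IsClosed N ∧ N.Nonempty ∧ ∀ x : BS, ∀ y ∈ N, x * y ∈ N}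

lemma exists_min : ∃ L, Minimal (· ∈ LI) L := by
  refine zorn_superset LI ?_
  intro c hc hchain
  refine ⟨⋂₀ c, ⟨isClosed_sInter fun t ht => (hc ht).1, ?_, ?_⟩,
    fun s hs => Set.sInter_subset_of_mem hs⟩
  · rcases c.eq_empty_or_nonempty with he | hne
    · subst he
      rw [Set.sInter_empty]; exact Set.univ_nonempty
    · have hd : DirectedOn (· ⊇ ·) c := by
        intro a ha b hb
        rcases hchain.total ha hb with h | h
        · exact ⟨a, ha, subset_rfl, h⟩
        · exact ⟨b, hb, h, subset_rfl⟩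
      exact IsCompact.nonempty_sInter_of_directed_nonempty_isCompact_isClosed
        (hS := hne.coe_sort) hd (fun U hU => (hc hU).2.1) (fun U hU => (hc hU).1.isCompact)
        (fun U hU => (hc hU).1)
  · intro x y hy
    rw [Set.mem_sInter] at hy ⊢
    intro t ht
    exact (hc ht).2.2 x y (hy t ht)

lemma right_id {L : Set BS} (hL : Minimal (· ∈ LI) L) {f : BS} (hf : f ∈ L) (hff : f * f = f)
    {x : BS} (hx : x ∈ L) : x * f = x := by
  have h1 : Set.range (fun y : BS => y * f) ∈ LI := by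
    refine ⟨(isCompact_range (Ultrafilter.continuous_mul_left f)).isClosed, ⟨_, f, rfl⟩, ?_⟩
    rintro x _ ⟨y, rfl⟩
    exact ⟨x * y, mul_assoc _ _ _⟩
  have h2 : Set.range (fun y : BS => y * f) ⊆ L := by
    rintro _ ⟨y, rfl⟩
    exact hL.prop.2.2 y f hf
  obtain ⟨y, rfl⟩ := hL.le_of_le h1 h2 hx
  show y * f * f = y * f
  rw [mul_assoc, hff]

/-- the words beginning with `d` are large -/
def J (d : Bool) : Set BS := {U | {π : FreeMonoid Bool | ∃ τ : FreeMonoid Bool,
  π = FreeMonoid.of d * τ} ∈ U}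

lemma J_mul (d : Bool) {x : BS} (hx : x ∈ J d) (y : BS) : x * y ∈ J d := by
  show ∀ᶠ m in (↑(x * y) : Filter (FreeMonoid Bool)), ∃ τ : FreeMonoid Bool,
    m = FreeMonoid.of d * τ
  rw [Ultrafilter.eventually_mul]
  have hx' : ∀ᶠ m in (x : Filter (FreeMonoid Bool)), ∃ τ : FreeMonoid Bool,
    m = FreeMonoid.of d * τ := hx
  refine hx'.mono ?_
  rintro m ⟨τ, rfl⟩
  exact Eventually.of_forall fun m' => ⟨τ * m', mul_assoc _ _ _⟩

lemma pure_mem (d : Bool) : (pure (FreeMonoid.of d) : BS) ∈ J d := by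
  show ∀ᶠ m in ((pure (FreeMonoid.of d) : BS) : Filter (FreeMonoid Bool)),
    ∃ τ : FreeMonoid Bool, m = FreeMonoid.of d * τ
  rw [Ultrafilter.coe_pure, eventually_pure]
  exact ⟨1, (mul_one _).symm⟩

theorem t_ULT : S_ULT := by
  obtain ⟨L, hL⟩ := exists_min
  have h : ∀ d : Bool, ∃ f ∈ L ∩ J d, f * f = f := by
    intro d
    refine exists_idempotent_in_compact_subsemigroup Ultrafilter.continuous_mul_left (L ∩ J d)
      ?_ ?_ ?_
    · obtain ⟨x, hx⟩ := hL.prop.2.1
      exact ⟨pure (FreeMonoid.of d) * x, hL.prop.2.2 _ x hx, J_mul d (pure_mem d) x⟩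
    · exact (hL.prop.1.inter (ultrafilter_isClosed_basic _)).isCompact
    · rintro x ⟨hx1, hx2⟩ y ⟨hy1, hy2⟩
      exact ⟨hL.prop.2.2 x y hy1, J_mul d hx2 y⟩
  choose U hU hUU using h
  refine ⟨U, fun d => ?_, fun d d' A => ?_⟩
  · have h1 : ∀ᶠ m in ((U d : BS) : Filter (FreeMonoid Bool)), ∃ τ : FreeMonoid Bool,
      m = FreeMonoid.of d * τ := (hU d).2
    exact h1
  · have h1 : U d * U d' = U d := right_id hL (hU d').1 (hUU d') (hU d).1
    have h2 := Ultrafilter.eventually_mul (U d) (U d') (fun m => m ∈ (A : Set (FreeMonoid Bool)))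
    rw [h1] at h2
    exact h2

end Pool.Agent.K1H10.PL
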